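import Pool.Agent.H98.RFC.Targets

set_option autoImplicit false

namespace Pool.Agent.H35.RFC

open Pool.Agent.H98.RFC

theorem bw_union {P Q : Finset (Site × Site)} (hd : Disjoint P Q) (q : Site × Site → ℝ)
    {S S' : Finset (Site × Site)} (hS : S ⊆ P) (hS' : S' ⊆ Q) :
    bw (P ∪ Q) q (S ∪ S') = bw P q S * bw Q q S' := by
  unfold bw
  have h1 : Disjoint S S' := Finset.disjoint_of_subset_left hS
    (Finset.disjoint_of_subset_right hS' hd)
  have h2 : (P ∪ Q) \ (S ∪ S') = (P \ S) ∪ (Q \ S') := by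
    ext e
    simp only [Finset.mem_sdiff, Finset.mem_union, not_or]
    constructor
    · rintro ⟨h | h, h3, h4⟩
      · exact Or.inl ⟨h, h3⟩
      · exact Or.inr ⟨h, h4⟩
    · rintro (⟨h, h3⟩ | ⟨h, h3⟩)
      · exact ⟨Or.inl h, h3, fun h4 => Finset.disjoint_left.1 hd h (hS' h4)⟩
      · exact ⟨Or.inr h, fun h4 => Finset.disjoint_left.1 hd (hS h4) h, h3⟩
  have h3 : Disjoint (P \ S) (Q \ S') := Finset.disjoint_of_subset_left Finset.sdiff_subset
    (Finset.disjoint_of_subset_right Finset.sdiff_subset hd)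
  rw [h2, Finset.prod_union h1, Finset.prod_union h3]
  ring

theorem sum_bw (P : Finset (Site × Site)) (q : Site × Site → ℝ) :
    ∑ ω ∈ P.powerset, bw P q ω = 1 := by
  classical
  unfold bw
  rw [← Finset.prod_add]
  exact Finset.prod_eq_one fun e _ => by ring

theorem pf_MG (hPS : T_PS) : T_MG := by
  classical
  intro q P P' D Λ x hP hD
  set Q : Finset (Site × Site) := P \ P' with hQ
  have hdis : Disjoint P' Q := Finset.disjoint_sdiff
  have hu : P' ∪ Q = P := Finset.union_sdiff_of_subset hP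
  have hconn : ∀ S ⊆ P', ∀ S' ⊆ Q, (conn D Λ (S ∪ S') x ↔ conn D Λ S x) := by
    intro S _ S' hS'
    unfold conn
    have hr : (fun a b : Site => a ∈ Λ ∧ a ∈ D ∧ b ∈ D ∧ opn (S ∪ S') a b) =
        (fun a b : Site => a ∈ Λ ∧ a ∈ D ∧ b ∈ D ∧ opn S a b) := by
      funext a b
      apply propext
      constructor
      · rintro ⟨h1, h2, h3, h4⟩
        refine ⟨h1, h2, h3, ?_⟩
        rcases h4 with h4 | h4
        · rcases Finset.mem_union.1 h4 with h5 | h5
          · exact Or.inl h5
          · have h6 := Finset.mem_sdiff.1 (hS' h5)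
            exact absurd (hD _ h6.1 h2 h3) h6.2
        · rcases Finset.mem_union.1 h4 with h5 | h5
          · exact Or.inr h5
          · have h6 := Finset.mem_sdiff.1 (hS' h5)
            exact absurd (hD _ h6.1 h3 h2) h6.2
      · rintro ⟨h1, h2, h3, h4⟩
        refine ⟨h1, h2, h3, ?_⟩
        rcases h4 with h4 | h4
        · exact Or.inl (Finset.mem_union_left _ h4)
        · exact Or.inr (Finset.mem_union_left _ h4)
    rw [hr]
  unfold psi
  rw [← hu, hPS (Site × Site) P' Q hdis]
  refine Finset.sum_congr rfl fun S hS => ?_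
  have hS1 := Finset.mem_powerset.1 hS
  have h1 : ∀ S' ∈ Q.powerset, bw (P' ∪ Q) q (S ∪ S') *
      (if conn D Λ (S ∪ S') x then (1 : ℝ) else 0) =
      (bw P' q S * (if conn D Λ S x then (1 : ℝ) else 0)) * bw Q q S' := by
    intro S' hS'
    have hS'1 := Finset.mem_powerset.1 hS'
    rw [bw_union hdis q hS1 hS'1]
    have h2 := hconn S hS1 S' hS'1
    by_cases h3 : conn D Λ S x
    · rw [if_pos (h2.2 h3), if_pos h3]
      ring
    · rw [if_neg (fun h => h3 (h2.1 h)), if_neg h3]
      ring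
  rw [Finset.sum_congr rfl h1, ← Finset.mul_sum, sum_bw, mul_one]

end Pool.Agent.H35.RFC
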