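import Pool.Agent.H98.RFC.Targets

set_option autoImplicit false

namespace Pool.Agent.H35.RFC

open Pool.Agent.H98.RFC

theorem pf_MON (hS : T_SUB) (hH : T_HOL) : T_MON := by
  intro R J hJ h T hT Λ B₁ B₂ hB h1 h2 f hf
  have hk := hH Λ (wt R J h T Λ B₁) (wt R J h T Λ B₂) f
    (fun S _ => (Real.exp_pos _).le) (fun S _ => (Real.exp_pos _).le) ?_ hf
  · exact hk
  · intro S S' hSL hSL'
    have e1 : ((S : Set Site) ∪ B₁) ∩ ((S' : Set Site) ∪ B₂) =
        (((S ∩ S' : Finset Site) : Set Site)) ∪ B₁ := by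
      ext x
      simp only [Set.mem_inter_iff, Set.mem_union, Finset.mem_coe, Finset.coe_inter]
      constructor
      · rintro ⟨ha | ha, hb | hb⟩
        · exact Or.inl ⟨ha, hb⟩
        · exact absurd hb (fun hb => Set.disjoint_left.1 h2 hb (Finset.mem_coe.2 (hSL ha)))
        · exact absurd ha (fun ha => Set.disjoint_left.1 h1 ha (Finset.mem_coe.2 (hSL' hb)))
        · exact Or.inr ha
      · rintro (⟨ha, hb⟩ | ha)
        · exact ⟨Or.inl ha, Or.inl hb⟩
        · exact ⟨Or.inr ha, Or.inr (hB ha)⟩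
    have e2 : ((S : Set Site) ∪ B₁) ∪ ((S' : Set Site) ∪ B₂) =
        (((S ∪ S' : Finset Site) : Set Site)) ∪ B₂ := by
      ext x
      simp only [Set.mem_union, Finset.mem_coe, Finset.coe_union]
      constructor
      · rintro ((ha | ha) | (ha | ha))
        · exact Or.inl (Or.inl ha)
        · exact Or.inr (hB ha)
        · exact Or.inl (Or.inr ha)
        · exact Or.inr ha
      · rintro ((ha | ha) | ha)
        · exact Or.inl (Or.inl ha)
        · exact Or.inr (Or.inl ha)
        · exact Or.inr (Or.inr ha)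
    have h3 := hS R J hJ h Λ ((S : Set Site) ∪ B₁) ((S' : Set Site) ∪ B₂)
    rw [e1, e2] at h3
    unfold wt
    rw [← Real.exp_add, ← Real.exp_add]
    apply Real.exp_le_exp.2
    rw [← add_div, ← add_div]
    apply div_le_div_of_nonneg_right _ hT.le
    linarith

end Pool.Agent.H35.RFC
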